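import Pool.Agent.Helper44.GF.Defs

/-! # VARM: the variance inequality in the finite model (MP_d210aa_gt) -/

open Finset MeasureTheory Filter Topology

namespace Pool.Agent.Helper44.GF

theorem varm_pos (hGAP : ST_GAP) (hLOWB : ST_LOWB) (hENER : ST_ENER) (hMF2 : ST_MF2)
    (hMF3 : ST_MF3) (n m : ℕ) (Y ι : Type) [Fintype Y] [DecidableEq Y] [Fintype ι]
    (S : ι → Finset (Fin n)) (r z : Y → ℝ) (d s : ℝ) (h : MH0 m S r z d s) (ξ e : ι → ℝ)
    (hξ : ∀ I, ξ I ≠ 0) :
    (∑ η, wt S (fun I => ξ I ^ 2) d r z η)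
        * (∑ η, wt S (fun I => ξ I ^ 2) d r z η * pol S (fun I => ξ I * e I) (tau d r η) ^ 2)
      - (∑ η, wt S (fun I => ξ I ^ 2) d r z η * pol S (fun I => ξ I * e I) (tau d r η)) ^ 2
      ≤ 1 / 2 * (∑ η, wt S (fun I => ξ I ^ 2) d r z η)
        * ∑ η, wt S (fun I => ξ I ^ 2) d r z η * pol S (fun I => e I ^ 2) (tau d r η) := by
  have hM : MH m S (fun I => ξ I ^ 2) r z d s :=
    ⟨h.hm, h.hS, h.hcov, fun I => by have := hξ I; positivity, h.hr, h.hz, h.hz1, h.hd, h.hs,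
      h.hsm, h.h1⟩
  have hpos := hMF3 n m Y ι S (fun I => ξ I ^ 2) r z d s hM
  have hcomp := (hMF2 n m Y ι S (fun I => ξ I ^ 2) r z d h.hS).2.1
  have hlow := hLOWB n m Y ι S _ r z d s hM
  have hgap := hGAP (Fin n × Y) (wt S (fun I => ξ I ^ 2) d r z) (bet S (fun I => ξ I ^ 2) d r z)
    (fun η => (hpos η).2.2.2.1) (fun η x => (hpos η).2.2.2.2.1 x) hcomp (4 / 15) (by norm_num) hlow
    (fun η => pol S (fun I => ξ I * e I) (tau d r η))
  have hener := hENER n m Y ι S ξ e r z d s hM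
  have hZ : 0 ≤ ∑ η, wt S (fun I => ξ I ^ 2) d r z η :=
    Finset.sum_nonneg fun η _ => (hpos η).2.2.2.1.le
  have hQ : 0 ≤ ∑ η, wt S (fun I => ξ I ^ 2) d r z η * pol S (fun I => e I ^ 2) (tau d r η) := by
    refine Finset.sum_nonneg fun η _ => mul_nonneg (hpos η).2.2.2.1.le ?_
    refine Finset.sum_nonneg fun I _ => mul_nonneg (sq_nonneg _) ?_
    exact Finset.prod_nonneg fun i _ => h.hd.le.trans ((hpos η).1 i)
  have hms : (m : ℝ) * s ≤ 1 / 15 := by
    have hm1 : (1 : ℝ) ≤ m := by exact_mod_cast h.hm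
    have hm0 : (0 : ℝ) < m := by linarith
    calc (m : ℝ) * s ≤ m * (1 / (15 * m)) := mul_le_mul_of_nonneg_left h.hsm hm0.le
      _ = 1 / 15 := by field_simp
  refine hgap.trans ?_
  have h1 := mul_le_mul_of_nonneg_left hener hZ
  have h2 : (m : ℝ) * s * ((∑ η, wt S (fun I => ξ I ^ 2) d r z η)
      * ∑ η, wt S (fun I => ξ I ^ 2) d r z η * pol S (fun I => e I ^ 2) (tau d r η))
      ≤ 1 / 15 * ((∑ η, wt S (fun I => ξ I ^ 2) d r z η)
      * ∑ η, wt S (fun I => ξ I ^ 2) d r z η * pol S (fun I => e I ^ 2) (tau d r η)) :=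
    mul_le_mul_of_nonneg_right hms (mul_nonneg hZ hQ)
  nlinarith [h1, h2]

theorem varm_cont {n : ℕ} {Y ι : Type} [Fintype Y] [DecidableEq Y] [Fintype ι]
    (S : ι → Finset (Fin n)) (r z : Y → ℝ) (d : ℝ) (η : Finset (Fin n × Y)) :
    Continuous fun ξ : ι → ℝ => wt S (fun I => ξ I ^ 2) d r z η := by
  unfold wt pol
  fun_prop

theorem varm_cont2 {n : ℕ} {ι : Type} [Fintype ι]
    (S : ι → Finset (Fin n)) (e : ι → ℝ) (τ : Fin n → ℝ) :
    Continuous fun ξ : ι → ℝ => pol S (fun I => ξ I * e I) τ := by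
  unfold pol
  fun_prop

theorem st_VARM (hGAP : ST_GAP) (hLOWB : ST_LOWB) (hENER : ST_ENER) (hMF2 : ST_MF2)
    (hMF3 : ST_MF3) : ST_VARM := by
  intro n m Y ι _ _ _ S r z d s h ξ e
  classical
  set ξk : ℕ → ι → ℝ := fun k I => if ξ I = 0 then 1 / ((k : ℝ) + 1) else ξ I with hξk
  have hne : ∀ k I, ξk k I ≠ 0 := by
    intro k I
    rw [hξk]
    dsimp only
    split_ifs with h0
    · positivity
    · exact h0
  have hlim : Tendsto ξk atTop (𝓝 ξ) := by
    rw [tendsto_pi_nhds]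
    intro I
    by_cases h0 : ξ I = 0
    · have : (fun k => ξk k I) = fun k : ℕ => 1 / ((k : ℝ) + 1) := by
        funext k
        simp [hξk, h0]
      rw [this, h0]
      exact tendsto_one_div_add_atTop_nhds_zero_nat
    · have : (fun k => ξk k I) = fun _ : ℕ => ξ I := by
        funext k
        simp [hξk, h0]
      rw [this]
      exact tendsto_const_nhds
  have hc1 : Continuous fun ξ : ι → ℝ => (∑ η, wt S (fun I => ξ I ^ 2) d r z η)
        * (∑ η, wt S (fun I => ξ I ^ 2) d r z η * pol S (fun I => ξ I * e I) (tau d r η) ^ 2)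
      - (∑ η, wt S (fun I => ξ I ^ 2) d r z η * pol S (fun I => ξ I * e I) (tau d r η)) ^ 2 := by
    have h1 := fun η => varm_cont S r z d η
    have h2 := fun η => varm_cont2 S e (tau d r η)
    refine Continuous.sub (Continuous.mul (continuous_finsetSum _ fun η _ => h1 η)
      (continuous_finsetSum _ fun η _ => (h1 η).mul ((h2 η).pow 2)))
      ((continuous_finsetSum _ fun η _ => (h1 η).mul (h2 η)).pow 2)
  have hc2 : Continuous fun ξ : ι → ℝ => 1 / 2 * (∑ η, wt S (fun I => ξ I ^ 2) d r z η)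
        * ∑ η, wt S (fun I => ξ I ^ 2) d r z η * pol S (fun I => e I ^ 2) (tau d r η) := by
    have h1 := fun η => varm_cont S r z d η
    exact (continuous_const.mul (continuous_finsetSum _ fun η _ => h1 η)).mul
      (continuous_finsetSum _ fun η _ => (h1 η).mul continuous_const)
  exact le_of_tendsto_of_tendsto ((hc1.tendsto ξ).comp hlim) ((hc2.tendsto ξ).comp hlim)
    (Eventually.of_forall fun k =>
      varm_pos hGAP hLOWB hENER hMF2 hMF3 n m Y ι S r z d s h (ξk k) e (hne k))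

end Pool.Agent.Helper44.GF
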